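import Pool.Agent.Helper16.PL.St

open Finset

namespace Pool.Helper11PL

open Pool.HW Pool.PL

theorem grow : StGrow := by
  intro G a r m hG ha hr hrec
  set c : ℝ := G m + a / r with hc
  have hc0 : 0 ≤ c := by positivity
  have hrc : a ≤ r * c := by
    have : r * c = r * G m + a := by rw [hc]; field_simp
    rw [this]
    nlinarith
  have key : ∀ n, G (m + n) ≤ c * (1 + r) ^ n := by
    intro n
    induction n using Nat.strong_induction_on with
    | _ n ih =>
      cases n with
      | zero =>
        rw [Nat.add_zero, pow_zero, mul_one, hc]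
        have : 0 ≤ a / r := by positivity
        linarith
      | succ n =>
        have h1 := hrec (m + n) (Nat.le_add_right m n)
        have h2 := ih n (Nat.lt_succ_self n)
        have h3 : ∑ k ∈ Ico m (m + n), G k ≤ ∑ i ∈ range n, c * (1 + r) ^ i := by
          rw [Finset.sum_Ico_eq_sum_range, Nat.add_sub_cancel_left]
          apply Finset.sum_le_sum
          intro i hi
          exact ih i (Nat.lt_succ_of_lt (Finset.mem_range.1 hi))
        have h4 : r * ∑ i ∈ range n, c * (1 + r) ^ i = c * ((1 + r) ^ n - 1) := by
          rw [← Finset.mul_sum, ← geom_sum_mul]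
          ring
        have h5 : r ^ 2 * ∑ k ∈ Ico m (m + n), G k ≤ r * (c * ((1 + r) ^ n - 1)) := by
          rw [← h4]
          calc r ^ 2 * ∑ k ∈ Ico m (m + n), G k ≤ r ^ 2 * ∑ i ∈ range n, c * (1 + r) ^ i := by
                gcongr
            _ = _ := by ring
        calc G (m + (n + 1)) ≤ G (m + n) + a + r ^ 2 * ∑ k ∈ Ico m (m + n), G k := h1
          _ ≤ c * (1 + r) ^ n + r * c + r * (c * ((1 + r) ^ n - 1)) := by linarith
          _ = c * (1 + r) ^ (n + 1) := by ring
  intro h hh
  have := key (h - m)
  rwa [Nat.add_sub_cancel' hh] at this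

end Pool.Helper11PL
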