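import Pool.Agent.Helper16.PL.St

open Finset

namespace Pool.Helper11PL

open Pool.HW Pool.PL

section

variable {α β : Type} [DecidableEq α] [DecidableEq β]

/-- the pairs `(C, b)` with `(p :: C, b)` in `T` -/
def tl (T : Finset (List α × β)) (p : α) : Finset (List α × β) :=
  (T.filter fun q => q.1.head? = some p).image fun q => (q.1.tail, q.2)

lemma mem_tl {T : Finset (List α × β)} {p : α} {r : List α × β} :
    r ∈ tl T p ↔ (p :: r.1, r.2) ∈ T := by
  simp only [tl, mem_image, mem_filter]
  constructor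
  · rintro ⟨⟨L, b⟩, ⟨h1, h2⟩, rfl⟩
    cases L with
    | nil => simp at h2
    | cons a L =>
      simp only [List.head?_cons, Option.some.injEq] at h2
      subst h2
      exact h1
  · intro h
    exact ⟨_, ⟨h, rfl⟩, rfl⟩

lemma sum_decomp (P : Finset α) (T : Finset (List α × β))
    (hP : ∀ q ∈ T, ∀ p ∈ q.1, p ∈ P) (f : List α × β → ℝ) :
    ∑ q ∈ T, f q = ∑ q ∈ T.filter (fun q => q.1 = []), f q +
      ∑ p ∈ P, ∑ r ∈ tl T p, f (p :: r.1, r.2) := by
  have h1 : ∀ p ∈ P, ∑ r ∈ tl T p, f (p :: r.1, r.2) =
      ∑ q ∈ T, if q.1.head? = some p then f q else 0 := by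
    intro p _
    rw [tl, Finset.sum_image, Finset.sum_filter]
    · apply Finset.sum_congr rfl
      rintro ⟨L, b⟩ _
      cases L with
      | nil => simp
      | cons a L =>
        by_cases h : a = p
        · subst h; simp
        · simp [h]
    · rintro ⟨L, b⟩ h ⟨L', b'⟩ h' heq
      simp only [coe_filter, Set.mem_ofPred_eq] at h h'
      cases L with
      | nil => simp at h
      | cons a L =>
        cases L' with
        | nil => simp at h'
        | cons a' L' =>
          simp only [List.head?_cons, Option.some.injEq] at h h'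
          simp only [List.tail_cons, Prod.mk.injEq] at heq
          rw [h.2, h'.2, heq.1, heq.2]
  rw [Finset.sum_congr rfl h1, Finset.sum_comm, Finset.sum_filter, ← Finset.sum_add_distrib]
  apply Finset.sum_congr rfl
  rintro ⟨L, b⟩ hq
  cases L with
  | nil => simp
  | cons a L =>
    have ha : a ∈ P := hP _ hq a (by simp)
    simp [ha]

theorem kraft_abs (P : Finset α) (w : α → ℝ) (hw : ∀ p, 0 ≤ w p) (hs : ∑ p ∈ P, w p ≤ 1)
    (c : β → β → Prop) (hc : ∀ b, c b b) (ok : β → Prop) (v : β → ℝ)
    (H : ∀ B : Finset β, (∀ b ∈ B, ok b) → (∀ b ∈ B, ∀ b' ∈ B, c b b' → b = b') →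
      ∑ b ∈ B, v b ≤ 1) (n : ℕ) :
    ∀ T : Finset (List α × β), (∀ q ∈ T, q.1.length ≤ n) → (∀ q ∈ T, ∀ p ∈ q.1, p ∈ P) →
      (∀ q ∈ T, ok q.2) →
      (∀ q ∈ T, ∀ q' ∈ T, (q.1 <+: q'.1 ∨ q'.1 <+: q.1) → c q.2 q'.2 → q = q') →
      ∑ q ∈ T, (q.1.map w).prod * v q.2 ≤ 1 := by
  induction n with
  | zero =>
    intro T h1 h2 h3 h4
    have h5 : ∀ q ∈ T, q.1 = [] := fun q hq => List.eq_nil_of_length_eq_zero (by
      have := h1 q hq; omega)
    have h6 : ∑ q ∈ T, (q.1.map w).prod * v q.2 = ∑ b ∈ T.image Prod.snd, v b := by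
      rw [Finset.sum_image]
      · apply Finset.sum_congr rfl
        intro q hq
        rw [h5 q hq]; simp
      · intro q hq q' hq' h
        exact Prod.ext ((h5 q hq).trans (h5 q' hq').symm) h
    rw [h6]
    apply H
    · intro b hb
      obtain ⟨q, hq, rfl⟩ := mem_image.1 hb
      exact h3 q hq
    · intro b hb b' hb' h
      obtain ⟨q, hq, rfl⟩ := mem_image.1 hb
      obtain ⟨q', hq', rfl⟩ := mem_image.1 hb'
      rw [h4 q hq q' hq' (by rw [h5 q hq]; left; exact List.nil_prefix) h]
  | succ n ih =>
    intro T h1 h2 h3 h4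
    rw [sum_decomp P T h2]
    set T0 := T.filter (fun q => q.1 = []) with hT0
    set s0 : ℝ := ∑ q ∈ T0, (q.1.map w).prod * v q.2 with hs0
    have hm0 : ∀ r ∈ T0, r ∈ T ∧ r.1 = [] := fun r hr => by
      rw [hT0, mem_filter] at hr; exact hr
    have h0le : s0 ≤ 1 := by
      apply ih T0
      · intro q hq; rw [(hm0 q hq).2]; simp
      · intro q hq; exact h2 q (hm0 q hq).1
      · intro q hq; exact h3 q (hm0 q hq).1
      · intro q hq q' hq'; exact h4 q (hm0 q hq).1 q' (hm0 q' hq').1
    have hcross : ∀ p, ∀ r ∈ tl T p, ∀ r' ∈ T0, ¬ c r.2 r'.2 ∧ ¬ c r'.2 r.2 := by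
      intro p r hr r' hr'
      have e1 := mem_tl.1 hr
      obtain ⟨e2, e3⟩ := hm0 r' hr'
      constructor
      · intro h
        have := h4 _ e1 _ e2 (by right; rw [e3]; exact List.nil_prefix) h
        rw [← this] at e3
        simp at e3
      · intro h
        have := h4 _ e2 _ e1 (by left; rw [e3]; exact List.nil_prefix) h
        rw [this] at e3
        simp at e3
    have hp : ∀ p ∈ P, ∑ r ∈ tl T p, (r.1.map w).prod * v r.2 + s0 ≤ 1 := by
      intro p _
      have hdisj : Disjoint (tl T p) T0 := by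
        rw [Finset.disjoint_left]
        intro r hr hr'
        exact (hcross p r hr r hr').1 (hc _)
      rw [hs0, ← Finset.sum_union hdisj]
      apply ih
      · intro q hq
        rcases mem_union.1 hq with hq | hq
        · have := h1 _ (mem_tl.1 hq)
          simpa using this
        · rw [(hm0 q hq).2]; simp
      · intro q hq
        rcases mem_union.1 hq with hq | hq
        · intro a ha
          exact h2 _ (mem_tl.1 hq) a (List.mem_cons_of_mem _ ha)
        · exact h2 q (hm0 q hq).1
      · intro q hq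
        rcases mem_union.1 hq with hq | hq
        · exact h3 (p :: q.1, q.2) (mem_tl.1 hq)
        · exact h3 q (hm0 q hq).1
      · intro q hq q' hq' hcmp hcc
        rcases mem_union.1 hq with hq | hq <;> rcases mem_union.1 hq' with hq' | hq'
        · have := h4 _ (mem_tl.1 hq) _ (mem_tl.1 hq') (by
            rcases hcmp with h | h
            · left; exact (List.prefix_cons_inj _).2 h
            · right; exact (List.prefix_cons_inj _).2 h) hcc
          simp only [Prod.mk.injEq, List.cons.injEq, true_and] at this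
          exact Prod.ext this.1 this.2
        · exact absurd hcc (hcross p q hq q' hq').1
        · exact absurd hcc (hcross p q' hq' q hq).2
        · exact h4 q (hm0 q hq).1 q' (hm0 q' hq').1 hcmp hcc
    have hfin : ∑ p ∈ P, ∑ r ∈ tl T p, (((p :: r.1).map w).prod * v r.2) ≤ 1 - s0 := by
      calc ∑ p ∈ P, ∑ r ∈ tl T p, (((p :: r.1).map w).prod * v r.2)
          = ∑ p ∈ P, w p * ∑ r ∈ tl T p, (r.1.map w).prod * v r.2 := by
            apply Finset.sum_congr rfl
            intro p _
            rw [Finset.mul_sum]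
            apply Finset.sum_congr rfl
            intro r _
            rw [List.map_cons, List.prod_cons]; ring
        _ ≤ ∑ p ∈ P, w p * (1 - s0) := by
            apply Finset.sum_le_sum
            intro p hp'
            have := hp p hp'
            exact mul_le_mul_of_nonneg_left (by linarith) (hw p)
        _ = (∑ p ∈ P, w p) * (1 - s0) := by rw [Finset.sum_mul]
        _ ≤ 1 * (1 - s0) := by
            apply mul_le_mul_of_nonneg_right hs
            linarith
        _ = 1 - s0 := one_mul _
    show s0 + ∑ p ∈ P, ∑ r ∈ tl T p, (((p :: r.1).map w).prod * v r.2) ≤ 1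
    linarith

end

theorem kraft_one {α : Type} [DecidableEq α] (P : Finset α) (w : α → ℝ) (hw : ∀ p, 0 ≤ w p)
    (hs : ∑ p ∈ P, w p ≤ 1) (B : Finset (List α)) (h1 : ∀ b ∈ B, ∀ p ∈ b, p ∈ P)
    (h2 : ∀ b ∈ B, ∀ b' ∈ B, (b <+: b' ∨ b' <+: b) → b = b') :
    ∑ b ∈ B, (b.map w).prod ≤ 1 := by
  have h3 := kraft_abs (β := Unit) P w hw hs (fun _ _ => True) (fun _ => trivial)
    (fun _ => True) (fun _ => 1) (fun C _ _ => by
      have : C.card ≤ 1 := Finset.card_le_one.2 fun a _ b _ => Subsingleton.elim a b
      simpa using this) (B.sup List.length) (B.image fun b => (b, ()))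
      (by
        intro q hq
        obtain ⟨b, hb, rfl⟩ := mem_image.1 hq
        exact Finset.le_sup (f := List.length) hb)
      (by
        intro q hq
        obtain ⟨b, hb, rfl⟩ := mem_image.1 hq
        exact h1 b hb)
      (fun _ _ => trivial)
      (by
        intro q hq q' hq' h _
        obtain ⟨b, hb, rfl⟩ := mem_image.1 hq
        obtain ⟨b', hb', rfl⟩ := mem_image.1 hq'
        rw [h2 b hb b' hb' h])
  rw [Finset.sum_image (by
    intro a _ b _ h
    exact (Prod.mk.injEq _ _ _ _ ▸ h).1)] at h3
  simpa using h3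

theorem kraft : StKraft := by
  intro α _ P w hw hs T hT hanti
  apply kraft_abs P w hw hs (fun b b' : List α => b <+: b' ∨ b' <+: b)
    (fun b => Or.inl List.prefix_rfl) (fun b => ∀ p ∈ b, p ∈ P) (fun b => (b.map w).prod)
    (fun B h1 h2 => kraft_one P w hw hs B h1 h2) (T.sup fun q => q.1.length) T
  · intro q hq
    exact Finset.le_sup (f := fun q : List α × List α => q.1.length) hq
  · intro q hq; exact (hT q hq).1
  · intro q hq; exact (hT q hq).2
  · intro q hq q' hq' h h'; exact hanti q hq q' hq' h h'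

end Pool.Helper11PL
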