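import Pool.Agent.Helper16.PL.St

open Finset

namespace Pool.Helper11PL

open Pool.HW Pool.PL

section

variable {α : Type} [DecidableEq α]

lemma pers_key (S : Sys α) {h h' m d1 d2 : ℕ} (hm : m ≤ h) (hm' : m ≤ h')
    {A1 A1' A2 A2' B1 B1' B2 B2' M M' : List α} (hM : ∀ p ∈ M, p ∈ S.P) (hM' : ∀ p ∈ M', p ∈ S.P)
    (p1 : A1 ++ B1 <+: M) (p2 : A2 ++ B2 <+: M) (p1' : A1' ++ B1' <+: M')
    (p2' : A2' ++ B2' <+: M') (a1 : S.ht A1 = d1) (a1' : S.ht A1' = d1) (a2 : S.ht A2 = d2)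
    (a2' : S.ht A2' = d2) (b1 : S.ht B1 = h) (b1' : S.ht B1' = h') (b2 : S.ht B2 = h)
    (b2' : S.ht B2' = h') (hd2 : d2 ≤ m) (hle : d1 ≤ d2) (hA : S.Amin (A2, A2'))
    (hG : S.Good m B1 B1') : A1 = A2 ∧ A1' = A2' ∧ B1 = B2 ∧ B1' = B2' := by
  have q1 : A1 <+: M := (List.prefix_append _ _).trans p1
  have q2 : A2 <+: M := (List.prefix_append _ _).trans p2
  have q1' : A1' <+: M' := (List.prefix_append _ _).trans p1'
  have q2' : A2' <+: M' := (List.prefix_append _ _).trans p2'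
  rcases Nat.eq_or_lt_of_le hle with heq | hlt
  · have e1 : A1 = A2 := S.prefix_eq_of_ht hM q1 q2 (by omega)
    have e1' : A1' = A2' := S.prefix_eq_of_ht hM' q1' q2' (by omega)
    have e2 : A1 ++ B1 = A2 ++ B2 := S.prefix_eq_of_ht hM p1 p2 (by
      rw [S.ht_append, S.ht_append]; omega)
    have e2' : A1' ++ B1' = A2' ++ B2' := S.prefix_eq_of_ht hM' p1' p2' (by
      rw [S.ht_append, S.ht_append]; omega)
    refine ⟨e1, e1', ?_, ?_⟩
    · rw [e1] at e2; exact List.append_cancel_left e2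
    · rw [e1'] at e2'; exact List.append_cancel_left e2'
  · exfalso
    obtain ⟨K, hK⟩ := S.prefix_of_ht_le hM q1 q2 (by omega)
    obtain ⟨K', hK'⟩ := S.prefix_of_ht_le hM' q1' q2' (by omega)
    have r1 : A1 ++ K <+: A1 ++ B1 := by
      rw [hK]
      exact S.prefix_of_ht_le hM q2 p1 (by rw [S.ht_append]; omega)
    have r1' : A1' ++ K' <+: A1' ++ B1' := by
      rw [hK']
      exact S.prefix_of_ht_le hM' q2' p1' (by rw [S.ht_append]; omega)
    have s1 : K <+: B1 := (List.prefix_append_right_inj _).1 r1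
    have s1' : K' <+: B1' := (List.prefix_append_right_inj _).1 r1'
    have t1 : S.ht K = d2 - d1 := by
      have := congrArg S.ht hK
      rw [S.ht_append] at this
      omega
    have t1' : S.ht K' = d2 - d1 := by
      have := congrArg S.ht hK'
      rw [S.ht_append] at this
      omega
    have g := hG K K' s1 s1' (by omega) (by omega) (by omega)
    have a := hA A1 A1' ⟨K, hK⟩ ⟨K', hK'⟩ (by omega)
    have u1 := congrArg S.xx hK
    have u1' := congrArg S.xx hK'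
    rw [S.xx_append] at u1 u1'
    simp only at a
    omega

end

theorem pers1 (hK : StKraft) : StPers1 := by
  intro α _ S h h' m hm hm'
  classical
  set 𝒜 : Finset (List α × List α) := (range (m + 1)).biUnion fun d =>
    (S.LH d ×ˢ S.LH d).filter (fun q => S.Amin q) with h𝒜
  set 𝒢 : Finset (List α × List α) :=
    (S.LH h ×ˢ S.LH h').filter (fun q => S.Good m q.1 q.2) with h𝒢
  have hmA : ∀ q ∈ 𝒜, ∃ d ≤ m, (∀ p ∈ q.1, p ∈ S.P) ∧ (∀ p ∈ q.2, p ∈ S.P) ∧ S.ht q.1 = d ∧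
      S.ht q.2 = d ∧ S.Amin q := by
    intro q hq
    rw [h𝒜, mem_biUnion] at hq
    obtain ⟨d, hd, hq⟩ := hq
    rw [mem_filter, mem_product, S.mem_LH, S.mem_LH] at hq
    exact ⟨d, by have := mem_range.1 hd; omega, hq.1.1.1, hq.1.2.1, hq.1.1.2, hq.1.2.2, hq.2⟩
  have hmG : ∀ q ∈ 𝒢, (∀ p ∈ q.1, p ∈ S.P) ∧ (∀ p ∈ q.2, p ∈ S.P) ∧ S.ht q.1 = h ∧
      S.ht q.2 = h' ∧ S.Good m q.1 q.2 := by
    intro q hq
    rw [h𝒢, mem_filter, mem_product, S.mem_LH, S.mem_LH] at hq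
    exact ⟨hq.1.1.1, hq.1.2.1, hq.1.1.2, hq.1.2.2, hq.2⟩
  have hA : S.am m = ∑ q ∈ 𝒜, S.wt q.1 * S.wt q.2 := by
    rw [h𝒜, Finset.sum_biUnion]
    · rw [Sys.am]
    · intro d _ e _ hde
      rw [Function.onFun, Finset.disjoint_left]
      intro q hq hq'
      rw [mem_filter, mem_product, S.mem_LH, S.mem_LH] at hq hq'
      exact hde (hq.1.1.2.symm.trans hq'.1.1.2)
  have hG : S.good h h' m = ∑ q ∈ 𝒢, S.wt q.1 * S.wt q.2 := by rw [Sys.good]
  -- the map
  set Φ : (List α × List α) × (List α × List α) → List α × List α :=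
    fun r => (r.1.1 ++ r.2.1, r.1.2 ++ r.2.2) with hΦ
  have key : ∀ r ∈ 𝒜 ×ˢ 𝒢, ∀ s ∈ 𝒜 ×ˢ 𝒢,
      ((Φ r).1 <+: (Φ s).1 ∨ (Φ s).1 <+: (Φ r).1) →
      ((Φ r).2 <+: (Φ s).2 ∨ (Φ s).2 <+: (Φ r).2) → r = s := by
    intro r hr s hs h1 h2
    obtain ⟨hr1, hr2⟩ := mem_product.1 hr
    obtain ⟨hs1, hs2⟩ := mem_product.1 hs
    obtain ⟨d, hd, ra, ra', rh, rh', rA⟩ := hmA _ hr1
    obtain ⟨e, he, sa, sa', sh, sh', sA⟩ := hmA _ hs1
    obtain ⟨rb, rb', rg, rg', rG⟩ := hmG _ hr2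
    obtain ⟨sb, sb', sg, sg', sG⟩ := hmG _ hs2
    obtain ⟨M, hM, pr, ps⟩ : ∃ M : List α, (∀ p ∈ M, p ∈ S.P) ∧ r.1.1 ++ r.2.1 <+: M ∧
        s.1.1 ++ s.2.1 <+: M := by
      rcases h1 with h1 | h1
      · refine ⟨s.1.1 ++ s.2.1, ?_, h1, List.prefix_rfl⟩
        intro p hp
        rcases List.mem_append.1 hp with hp | hp
        · exact sa p hp
        · exact sb p hp
      · refine ⟨r.1.1 ++ r.2.1, ?_, List.prefix_rfl, h1⟩
        intro p hp
        rcases List.mem_append.1 hp with hp | hp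
        · exact ra p hp
        · exact rb p hp
    obtain ⟨M', hM', pr', ps'⟩ : ∃ M : List α, (∀ p ∈ M, p ∈ S.P) ∧ r.1.2 ++ r.2.2 <+: M ∧
        s.1.2 ++ s.2.2 <+: M := by
      rcases h2 with h2 | h2
      · refine ⟨s.1.2 ++ s.2.2, ?_, h2, List.prefix_rfl⟩
        intro p hp
        rcases List.mem_append.1 hp with hp | hp
        · exact sa' p hp
        · exact sb' p hp
      · refine ⟨r.1.2 ++ r.2.2, ?_, List.prefix_rfl, h2⟩
        intro p hp
        rcases List.mem_append.1 hp with hp | hp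
        · exact ra' p hp
        · exact rb' p hp
    rcases le_total d e with hde | hde
    · obtain ⟨e1, e2, e3, e4⟩ := pers_key S hm hm' hM hM' pr ps pr' ps' rh rh' sh sh' rg rg'
        sg sg' he hde sA rG
      exact Prod.ext (Prod.ext e1 e2) (Prod.ext e3 e4)
    · obtain ⟨e1, e2, e3, e4⟩ := pers_key S hm hm' hM hM' ps pr ps' pr' sh sh' rh rh' sg sg'
        rg rg' hd hde rA sG
      exact (Prod.ext (Prod.ext e1 e2) (Prod.ext e3 e4)).symm
  have hinj : Set.InjOn Φ (𝒜 ×ˢ 𝒢 : Finset _) := by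
    intro r hr s hs hrs
    exact key r hr s hs (by rw [hrs]; left; exact List.prefix_rfl)
      (by rw [hrs]; left; exact List.prefix_rfl)
  have h1 : S.am m * S.good h h' m =
      ∑ q ∈ (𝒜 ×ˢ 𝒢).image Φ, (q.1.map S.w).prod * (q.2.map S.w).prod := by
    rw [Finset.sum_image hinj, hA, hG, Finset.sum_mul_sum, ← Finset.sum_product']
    apply Finset.sum_congr rfl
    rintro r _
    show S.wt r.1.1 * S.wt r.1.2 * (S.wt r.2.1 * S.wt r.2.2) =
      S.wt (r.1.1 ++ r.2.1) * S.wt (r.1.2 ++ r.2.2)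
    rw [S.wt_append, S.wt_append]
    ring
  rw [h1]
  apply hK α S.P S.w S.w_nonneg S.w_sum
  · intro q hq
    obtain ⟨r, hr, rfl⟩ := mem_image.1 hq
    obtain ⟨hr1, hr2⟩ := mem_product.1 hr
    obtain ⟨d, hd, ra, ra', rh, rh', rA⟩ := hmA _ hr1
    obtain ⟨rb, rb', rg, rg', rG⟩ := hmG _ hr2
    constructor
    · intro p hp
      rcases List.mem_append.1 hp with hp | hp
      · exact ra p hp
      · exact rb p hp
    · intro p hp
      rcases List.mem_append.1 hp with hp | hp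
      · exact ra' p hp
      · exact rb' p hp
  · intro q hq q' hq' c1 c2
    obtain ⟨r, hr, rfl⟩ := mem_image.1 hq
    obtain ⟨s, hs, rfl⟩ := mem_image.1 hq'
    rw [key r hr s hs c1 c2]

end Pool.Helper11PL
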